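import Pool.Agent.H64NC.Idem
import Pool.Agent.H64NC.AsyD
import Pool.Agent.H64NC.Num
import Pool.Agent.H64NC.Reach
import Pool.Agent.H64NC.Cmt
import Pool.Agent.H64NC.Cnn
import Pool.Agent.H64NC.Wt

/-!
# The asymptotic sign conjecture is decided by Schur functors in one degree

`C` is a `ℚ`-linear rigid symmetric monoidal category in which the endomorphisms of the unit object are the rational
numbers, for example the category `NChow(k)_ℚ` of noncommutative Chow motives; `R` is a symmetric monoidal additive
functor to finite dimensional super vector spaces over a field, for example `HP_±` in characteristic zero or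
`TP_±(-)_{1/p}` in characteristic `p`. For an endomorphism `f` the rational number `ctr f` is its categorical trace (the Euler
characteristic of the Hochschild homology with coefficients in `f`); `f` is numerically trivial if `ctr (f ≫ g) = 0` for all `g`, and
`w` is a numerical involution if `w ≫ w` is numerically equivalent to the identity. `tp M n` is the tensor power `M ^ n`.

Let `ρ n` be the largest trace of a numerical involution of `M ^ n` (the parity index), and let `p`, `q` be the dimensions of the
even and of the odd part of `R(M)`. Always `ρ n ≤ (p + q) ^ n`, and `C⁺(M)` holds for `R` if and only if `ρ 1 = p + q`.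
The theorem: the following are equivalent, and they are consequences of `C⁺(M)`.

1. The asymptotic sign conjecture: `ρ(n) ^ (1/n)` tends to `p + q`.
2. The same with polynomial error: `(p + q) ^ (2 n) ≤ ρ(n) ^ 2 (n + 1) ^ ((p + q) ^ 2)` for all `n`.
3. There is one `n ≥ 1` with `((p + q) ^ (p q) - 2) ^ n < ρ(n) ^ (p q)`: one numerical involution of large trace is enough.
4. Conjecture D up to nilpotence for all tensor powers: all numerically trivial endomorphisms of all `M ^ n` are nilpotent under `R`.
5. The same for the single tensor power `M ^ (p q)`.
6. Only for Schur functors of degree `p q`: each idempotent `e` of the algebra generated by the exchanges of neighbouring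
   factors of `M ^ (p q)` which is numerically trivial has `R(e) = 0`.

The proof of 4 from 1 is a tensor power trick with partial supertraces: a numerically trivial endomorphism of `M ^ m` which is not
nilpotent gives `ρ(m k) ≤ ((p + q) ^ m - 2) ^ k`. For 2 from 4 the Casimir element of the trace form shows that the number of
numerically independent endomorphisms of any object is at most the square of its parity index, and the signed permutations of
the factors are counted with Burnside's lemma. For 4 from 6, a numerically trivial element of the group algebra in the lowest possible degree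
has no partial traces, so its image is killed by the squares of the matrix of `gl(p|q)`, and a highest weight vector shows that the degree
is `a (a + q - p)` with `a ≤ p`.
-/

set_option autoImplicit false

open CategoryTheory Limits MonoidalCategory Filter Topology

namespace Pool.Agent.Results.MP_8f22fa_ag.AsymptoticSign

open Pool.Agent.Y112.SR Pool.Agent.Y112.KD Pool.Agent.R484.NC Pool.Agent.H64NC

universe u v w

/-- `r` is the parity index of `X`: the largest trace of a numerical involution of `X`. -/
def IsParityIndex {C : Type u} [Category.{v} C] [Preadditive C] [Linear ℚ C] [MonoidalCategory C]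
    [MonoidalPreadditive C] [MonoidalLinear ℚ C] [SymmetricCategory C] [RightRigidCategory C]
    (hU : UnitQ C) (X : C) (r : ℕ) : Prop :=
  IsGreatest {d : ℚ | ∃ x : X ⟶ X, NumInvolution hU x ∧ ctr hU x = d} r

/-- The numerically trivial endomorphisms of `X` are nilpotent under `R`. -/
def NumNil {C : Type u} [Category.{v} C] [Preadditive C] [Linear ℚ C] [MonoidalCategory C]
    [MonoidalPreadditive C] [MonoidalLinear ℚ C] [SymmetricCategory C] [RightRigidCategory C]
    (hU : UnitQ C) {K : Type w} [Field K] (R : SuperRealisation C K) (X : C) : Prop :=
  ∀ f : X ⟶ X, NumZero hU f → IsNilpotent (R.H.map f).hom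

/-- `R` kills the numerically trivial idempotents of the algebra which is generated by the exchanges of two neighbouring
factors of `M ^ m`. -/
def IdemZero {C : Type u} [Category.{v} C] [Preadditive C] [Linear ℚ C] [MonoidalCategory C]
    [MonoidalPreadditive C] [MonoidalLinear ℚ C] [SymmetricCategory C] [RightRigidCategory C]
    (hU : UnitQ C) {K : Type w} [Field K] (R : SuperRealisation C K) (M : C) (m : ℕ) : Prop :=
  ∀ e : tp M m ⟶ tp M m, (e : End (tp M m)) ∈
    Algebra.adjoin ℚ {s : End (tp M m) | IsSwap M m s} → e ≫ e = e →
      NumZero hU e → R.H.map e = 0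

theorem result {C : Type u} [Category.{v} C] [Preadditive C] [Linear ℚ C] [MonoidalCategory C]
    [MonoidalPreadditive C] [MonoidalLinear ℚ C] [SymmetricCategory C] [RightRigidCategory C]
    (hU : UnitQ C) {K₀ : Type w} [Field K₀] (R₀ : SuperRealisation C K₀) (M : C) :
    ∃ ρ : ℕ → ℕ, (∀ n, IsParityIndex hU (tp M n) (ρ n)) ∧
      ∀ {K : Type w} [Field K] (R : SuperRealisation C K) (p q : ℕ), evenDim R M = p →
        totalDim R M = p + q →
        [Tendsto (fun n : ℕ => (ρ n : ℝ) ^ ((1 : ℝ) / n)) atTop (𝓝 ((p : ℝ) + q)),
          ∀ n, (p + q) ^ (2 * n) ≤ ρ n ^ 2 * (n + 1) ^ ((p + q) ^ 2),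
          ∃ n, 1 ≤ n ∧ ((p + q) ^ (p * q) - 2) ^ n < ρ n ^ (p * q),
          ∀ n, NumNil hU R (tp M n),
          NumNil hU R (tp M (p * q)),
          IdemZero hU R M (p * q)].TFAE ∧
        (R.CPlus M → ∀ n, NumNil hU R (tp M n)) := by
  choose r hr using fun X : C => exists_index_obj R₀ hU X
  refine ⟨fun n => r (tp M n), fun n => hr _, fun {K} _ R p q hp hpq =>
    ⟨?_, fun h => nil_of_cplus R h⟩⟩
  subst hp
  have hρ : ∀ n, IsIdx hU (tp M n) (r (tp M n)) := fun n => hr _
  have hq : totalDim R M - evenDim R M = q := by omega
  have hD : ((evenDim R M : ℝ) + q) = (totalDim R M : ℝ) := by rw [hpq]; push_cast; rfl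
  have key := tfae2 (R := R) hρ t_PERM2 t_GRP (t_REACH R) (t_CMT R) (t_CNN R) (t_WT R) t_NUM
  rw [hq] at key
  rw [hD, ← hpq]
  tfae_have 1 → 4 := (key.out 0 2).1
  tfae_have 4 → 5 := fun h => h _
  tfae_have 5 → 6 := by
    intro h e he _ he0
    apply ModuleCat.hom_ext
    exact ga_zero R h e he he0
  tfae_have 6 → 2 := by
    intro h
    exact (key.out 4 5).1 (gnil_of_idem R (fun e he hee he0 => by
      rw [op, h e he hee he0]
      rfl))
  tfae_have 2 → 1 := (key.out 5 0).1
  tfae_have 1 → 3 := by
    intro h
    have h1 := exists_big R hρ ((key.out 0 1).1 h) (by omega)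
    rw [hq] at h1
    exact h1
  tfae_have 3 → 5 := by
    rintro ⟨n, -, hn⟩ f hf
    exact nilAt_of_big R hρ hn f hf
  tfae_finish

end Pool.Agent.Results.MP_8f22fa_ag.AsymptoticSign
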