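import Pool.Agent.H64ND.Cfin2
import Pool.Agent.H64ND.Cas2
import Pool.Agent.H64ND.Dual

/-!
# The Casimir element of a noncommutative motive and the conjecture `C⁺`

`C` is a `ℚ`-linear rigid symmetric monoidal category in which the endomorphisms of the unit object are the rational
numbers, for example the category `NChow(k)_ℚ` of noncommutative Chow motives; `R₀`, `R` are symmetric monoidal additive
functors to finite dimensional super vector spaces over fields, for example `HP_±` in characteristic zero or
`TP_±(-)_{1/p}` in characteristic `p`. For an endomorphism `f` the rational number `ctr f` is its categorical trace;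
`f` is numerically trivial if `ctr (f ≫ g) = 0` for all `g`; `w` is a numerical involution if `w ≫ w` is numerically equivalent to the
identity; the parity index of an object is the largest trace of its numerical involutions.

Let `f 1, …, f m` and `g 1, …, g m` be dual bases of the endomorphisms of `M` modulo numerical equivalence for the pairing `ctr (f ≫ g)` (they exist, and can be
computed from intersection numbers), and `Ω = ∑ f i ≫ g i` the *Casimir element*.

1. `Ω` is numerically central, and a root modulo numerical equivalence of a polynomial with simple nonzero rational roots. With the set `A` of the positive roots, `B` of the negative roots and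
   positive integers `μ l` the trace of `P(Ω)` is `∑_A μ l P(l) - ∑_B μ l P(l)` for every polynomial `P`, and the parity index of `M` is `∑_A μ l + ∑_B μ l`.
2. `C⁺(M)` holds for `R` if and only if the eigenvalues of `R(Ω)` on the even part of `R(M)` are positive rational numbers and on the odd part negative rational numbers. In this case `Q(Ω)` realises
   the difference of the Künneth projectors, for all polynomials `Q` with `Q ≡ 1` modulo `∏_A (X - l)^d` and `Q ≡ -1` modulo `∏_B (X - l)^d`, where `d = dim R(M)`; and if one such `Q(Ω)` does it, `C⁺(M)` holds.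
   So `C⁺(M)` can be tested with one explicit endomorphism.
3. `m ≤ (∑_A μ l)² + (∑_B μ l)²`. So, if `M` has more than `(p - 1)² + (q - 1)²` numerically independent endomorphisms, `p` and `q` the dimensions of the even and the odd part of `R(M)`, then
   `C⁺(M)` holds for `R`.
-/

set_option autoImplicit false

open CategoryTheory Limits MonoidalCategory Polynomial

namespace Pool.Agent.Results.MP_8f22fa_ag.CasimirCriterion

open Pool.Agent.Y112.SR Pool.Agent.Y112.KD Pool.Agent.R484.NC

universe u v w

section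

variable {C : Type u} [Category.{v} C] [Preadditive C] [Linear ℚ C]

/-- The polynomial `P` in the endomorphism `T`. -/
noncomputable def polyAt {M : C} (T : M ⟶ M) (P : ℚ[X]) : M ⟶ M :=
  (aeval (End.of T) P : End M)

/-- The Casimir element of two families of endomorphisms. -/
def casimir {M : C} {m : ℕ} (f g : Fin m → (M ⟶ M)) : M ⟶ M := ∑ i, f i ≫ g i

variable [MonoidalCategory C] [MonoidalPreadditive C] [MonoidalLinear ℚ C] [SymmetricCategory C]
  [RightRigidCategory C] (hU : UnitQ C)

/-- `r` is the parity index of `X`: the largest trace of a numerical involution of `X`. -/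
def IsParityIndex (X : C) (r : ℕ) : Prop :=
  IsGreatest {d : ℚ | ∃ x : X ⟶ X, NumInvolution hU x ∧ ctr hU x = d} r

/-- `f`, `g` are dual bases of the endomorphisms of `M` modulo numerical equivalence. -/
def DualBases {M : C} {m : ℕ} (f g : Fin m → (M ⟶ M)) : Prop :=
  (∀ i j, ctr hU (f i ≫ g j) = if i = j then 1 else 0) ∧
  ∀ h : M ⟶ M, NumZero hU (h - ∑ i, ctr hU (h ≫ g i) • f i)

/-- On the part of `R(M)` where the parity operator is `ε`, all eigenvalues of `R(T)` are rational numbers `l` with
`ε l > 0`: a power of `∏_{l ∈ A} (T - l)` vanishes there, for some finite set `A` of such numbers. -/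
def EigSign {K : Type w} [Field K] (R : SuperRealisation C K) {M : C} (T : M ⟶ M) (ε : ℤ) :
    Prop :=
  ∃ (A : Finset ℚ) (k : ℕ), (∀ l ∈ A, 0 < ε * l) ∧ ∀ x : R.H.obj M,
    (R.par M).hom x = (ε : K) • x →
      (R.H.map (polyAt T ((∏ l ∈ A, (X - Polynomial.C l)) ^ k))).hom x = 0

end

theorem result {C : Type u} [Category.{v} C] [Preadditive C] [Linear ℚ C] [MonoidalCategory C]
    [MonoidalPreadditive C] [MonoidalLinear ℚ C] [SymmetricCategory C] [RightRigidCategory C]
    (hU : UnitQ C) {K₀ : Type w} [Field K₀] (R₀ : SuperRealisation C K₀) (M : C) :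
    (∃ (m : ℕ) (f g : Fin m → (M ⟶ M)), DualBases hU f g) ∧
    ∀ (m : ℕ) (f g : Fin m → (M ⟶ M)), DualBases hU f g →
      (∀ h : M ⟶ M, NumZero hU (casimir f g ≫ h - h ≫ casimir f g)) ∧
      ∃ (A B : Finset ℚ) (μ : ℚ → ℕ),
        (∀ l ∈ A, 0 < l ∧ 0 < μ l) ∧ (∀ l ∈ B, l < 0 ∧ 0 < μ l) ∧
        (∀ P : ℚ[X], NumZero hU (polyAt (casimir f g) P) ↔ ∀ l ∈ A ∪ B, P.eval l = 0) ∧
        (∀ P : ℚ[X], ctr hU (polyAt (casimir f g) P) =
          ∑ l ∈ A, (μ l : ℚ) * P.eval l - ∑ l ∈ B, (μ l : ℚ) * P.eval l) ∧
        IsParityIndex hU M (∑ l ∈ A, μ l + ∑ l ∈ B, μ l) ∧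
        m ≤ (∑ l ∈ A, μ l) ^ 2 + (∑ l ∈ B, μ l) ^ 2 ∧
        ∀ {K : Type w} [Field K] (R : SuperRealisation C K),
          [R.CPlus M, totalDim R M = ∑ l ∈ A, μ l + ∑ l ∈ B, μ l,
            EigSign R (casimir f g) 1 ∧ EigSign R (casimir f g) (-1),
            ∀ Q : ℚ[X], (∏ l ∈ A, (X - Polynomial.C l)) ^ totalDim R M ∣ Q - 1 →
              (∏ l ∈ B, (X - Polynomial.C l)) ^ totalDim R M ∣ Q + 1 →
              R.H.map (polyAt (casimir f g) Q) = R.par M].TFAE ∧
          ((evenDim R M - 1) ^ 2 + (totalDim R M - evenDim R M - 1) ^ 2 < m → R.CPlus M) := by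
  obtain ⟨ρ, β, h⟩ := Pool.Agent.H64ND.exists_BD.{u, v, w} hU R₀
  refine ⟨Pool.Agent.H64ND.t_DUAL hU R₀ M, fun m f g hd => ?_⟩
  obtain ⟨h1, h2, A, B, μ, h3⟩ := Pool.Agent.H64ND.casData R₀ Pool.Agent.H64ND.t_CAS2 hd
  refine ⟨h2, A, B, μ, fun l hl => ⟨(h3.pos l hl).1, (h3.pos l hl).2.1⟩,
    fun l hl => ⟨(h3.neg l hl).1, (h3.neg l hl).2.1⟩, h3.nz, h3.tr, h3.idx,
    (Pool.Agent.H64ND.cas_rank R₀ h3 h h1).1, fun {K} _ R => ?_⟩
  exact ⟨Pool.Agent.H64ND.cas_tfae R h3 h, (Pool.Agent.H64ND.cas_rank R h3 h h1).2⟩

end Pool.Agent.Results.MP_8f22fa_ag.CasimirCriterion
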