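import Pool.Agent.H64ND.Rank

/-!
# The numerical Betti number of a noncommutative motive

`C` is a `ℚ`-linear rigid symmetric monoidal category in which the endomorphisms of the unit object are the rational
numbers, for example the category `NChow(k)_ℚ` of noncommutative Chow motives; `R₀`, `R` are symmetric monoidal additive
functors to finite dimensional super vector spaces over fields, for example `HP_±` in characteristic zero or
`TP_±(-)_{1/p}` in characteristic `p`. For an endomorphism `f` the rational number `ctr f` is its categorical trace;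
`f` is numerically trivial if `ctr (f ≫ g) = 0` for all `g`; `w` is a numerical involution if `w ≫ w` is numerically equivalent to the
identity; the parity index of an object is the largest trace of its numerical involutions, and its numerical rank the number of its numerically
independent endomorphisms, that is, the rank of the form `ctr (f ≫ g)`. `tp M n` is the tensor power `M ^ n`.

Let `ρ n` be the parity index and `r n` the numerical rank of `M ^ n`. Then the limit `β(M)` of `ρ(n) ^ (1/n)` exists and is an integer, the limit of
`r(n) ^ (1/n)` is `β(M) ^ 2`, both with polynomial error: `β(M) ^ (2 n) / (n + 1) ^ (β(M) ^ 2) ≤ r n ≤ ρ(n) ^ 2 ≤ β(M) ^ (2 n)`.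
We call `β(M)` the numerical Betti number. It does not involve any realisation: it is determined by ranks of intersection matrices. And

1. `β(1) = 1`, `β(M ⊗ N) = β(M) β(N)`, `β(M ⊕ N) = β(M) + β(N)`; `β(M) = 0` if and only if `M` is numerically zero. The parity index is
   additive, too.
2. `β(M) ≤ dim R(M)` and `β(M) ≡ dim R(M)` modulo two, for all realisations `R`. Equality holds if and only if the numerically
   trivial endomorphisms of all tensor powers of `M` are nilpotent under `R`. For this one rank is enough: more than `(dim R(M) - 2) ^ (2 n)`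
   numerically independent endomorphisms of `M ^ n`, for one `n`.
3. `C⁺(M)` for `R` is the conjunction of two conditions: the parity index of `M` itself is `β(M)` (this does not depend on `R`), and
   the numerically trivial endomorphisms of all tensor powers of `M` are nilpotent under `R`.

The proof is elementary (Deligne's theorem on tensor categories is not used). The elements of `ℚ[S_n]` which are numerically trivial
on `M ^ n` form ideals which are closed under partial traces; by a positivity argument the ideal in the lowest degree is killed by the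
Jucys-Murphy element plus `χ(M)`, and a Capelli identity shows that it is the block of a rectangle `(p' + 1) × (q' + 1)`, and that the ideals are
the kernels of the actions on the tensor powers of a super vector space of dimension `(p' | q')`; `β(M) = p' + q'`. The Casimir element of the trace form bounds
the number of numerically independent endomorphisms by the square of the parity index, from above the parity index is bounded by the rank
of any idempotent which is numerically equivalent to the identity, and both numbers are estimated with Burnside's lemma.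
-/

set_option autoImplicit false

open CategoryTheory Limits MonoidalCategory Filter Topology

namespace Pool.Agent.Results.MP_8f22fa_ag.NumericalBettiNumber

open Pool.Agent.Y112.SR Pool.Agent.Y112.KD Pool.Agent.R484.NC

universe u v w

section

variable {C : Type u} [Category.{v} C] [Preadditive C] [Linear ℚ C] [MonoidalCategory C]
  [MonoidalPreadditive C] [MonoidalLinear ℚ C] [SymmetricCategory C] [RightRigidCategory C]
  (hU : UnitQ C)

/-- `r` is the parity index of `X`: the largest trace of a numerical involution of `X`. -/
def IsParityIndex (X : C) (r : ℕ) : Prop :=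
  IsGreatest {d : ℚ | ∃ x : X ⟶ X, NumInvolution hU x ∧ ctr hU x = d} r

/-- `m` is the numerical rank of `X`: modulo numerical equivalence the endomorphisms of `X` have dual bases with `m` elements for
the form `ctr (f ≫ g)`. -/
def IsNumRank (X : C) (m : ℕ) : Prop :=
  ∃ f g : Fin m → (X ⟶ X), (∀ i j, ctr hU (f i ≫ g j) = if i = j then 1 else 0) ∧
    ∀ h : X ⟶ X, NumZero hU (h - ∑ i, ctr hU (h ≫ g i) • f i)

/-- The numerically trivial endomorphisms of all tensor powers of `M` are nilpotent under `R`. -/
def TensorNil {K : Type w} [Field K] (R : SuperRealisation C K) (M : C) : Prop :=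
  ∀ (n : ℕ) (f : tp M n ⟶ tp M n), NumZero hU f → IsNilpotent (R.H.map f).hom

/-- `b` is the limit of the `n`-th roots of the parity indices `ρ n` of the tensor powers of `M`, and `b ^ 2` the limit of the `n`-th roots of their numerical
ranks `r n`, with polynomial error. -/
def IsGrowth (M : C) (b : ℕ) : Prop :=
  ∃ ρ r : ℕ → ℕ, (∀ n, IsParityIndex hU (tp M n) (ρ n) ∧ IsNumRank hU (tp M n) (r n)) ∧
    Tendsto (fun n : ℕ => (ρ n : ℝ) ^ ((1 : ℝ) / n)) atTop (𝓝 (b : ℝ)) ∧
    Tendsto (fun n : ℕ => (r n : ℝ) ^ ((1 : ℝ) / n)) atTop (𝓝 ((b : ℝ) ^ 2)) ∧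
    ∀ n, ρ n ≤ b ^ n ∧ r n ≤ ρ n ^ 2 ∧ b ^ (2 * n) ≤ r n * (n + 1) ^ (b ^ 2)

end

theorem result {C : Type u} [Category.{v} C] [Preadditive C] [Linear ℚ C] [MonoidalCategory C]
    [MonoidalPreadditive C] [MonoidalLinear ℚ C] [SymmetricCategory C] [RightRigidCategory C]
    (hU : UnitQ C) {K₀ : Type w} [Field K₀] (R₀ : SuperRealisation C K₀) :
    ∃ β : C → ℕ, (∀ M, IsGrowth hU M (β M)) ∧
      β (𝟙_ C) = 1 ∧ (∀ M N, β (M ⊗ N) = β M * β N) ∧
      (∀ M N S, IsSum M N S → β S = β M + β N ∧ ∀ a b, IsParityIndex hU M a →
        IsParityIndex hU N b → IsParityIndex hU S (a + b)) ∧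
      (∀ M, β M = 0 ↔ NumZero hU (𝟙 M)) ∧
      ∀ (M : C) {K : Type w} [Field K] (R : SuperRealisation C K),
        β M ≤ totalDim R M ∧ Even (totalDim R M - β M) ∧
        (β M = totalDim R M ↔ TensorNil hU R M) ∧
        (∀ n m, IsNumRank hU (tp M n) m → (totalDim R M - 2) ^ (2 * n) < m →
          TensorNil hU R M) ∧
        (R.CPlus M ↔ IsParityIndex hU M (β M) ∧ TensorNil hU R M) := by
  obtain ⟨ρ, β, h⟩ := Pool.Agent.H64ND.exists_BD.{u, v, w} hU R₀
  have hrk : ∀ M n, ∃ m, IsNumRank hU (tp M n) m := fun M n =>
    Pool.Agent.H64ND.t_DUAL hU R₀ (tp M n)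
  choose r hr using hrk
  have hunit : β (𝟙_ C) = 1 := by
    obtain ⟨h1, h2, -⟩ := h.cp (𝟙_ C) R₀
    rw [Pool.Agent.H64NC.totalDim_unit] at h1 h2
    rcases Nat.lt_or_ge (β (𝟙_ C)) 1 with h3 | h3
    · have h4 : β (𝟙_ C) = 0 := by omega
      rw [h4] at h2
      exact absurd h2 (by decide)
    · omega
  refine ⟨β, fun M => ⟨fun n => ρ (tp M n), r M, fun n => ⟨h.idx _, hr M n⟩, ?_, ?_, fun n =>
      ⟨h.pow M n, h.rank_up R₀ M n _ (hr M n), h.rank_low R₀ M n _ (hr M n)⟩⟩, hunit,
    h.bmul, fun M N S hS => ⟨h.bsum M N S hS, fun a b ha hb => ?_⟩, h.bzero, fun M K _ R => ?_⟩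
  · exact Pool.Agent.H64NC.lim_root (fun n => h.pow M n) (fun n => h.low M n)
  · have h1 : ∀ n, r M n ≤ (β M ^ 2) ^ n := fun n => by
      refine (h.rank_up R₀ M n _ (hr M n)).trans ?_
      rw [← pow_mul, mul_comm 2 n, pow_mul]
      exact Nat.pow_le_pow_left (h.pow M n) 2
    have h2 : ∀ n, (β M ^ 2) ^ (2 * n) ≤ r M n ^ 2 * (n + 1) ^ ((β M ^ 2) ^ 2) := fun n => by
      have h3 := h.rank_low R₀ M n _ (hr M n)
      rcases Nat.lt_or_ge (β M) 2 with h4 | h4
      · have h5 : 0 < r M n ∨ β M ^ (2 * n) = 0 := by
          rcases Nat.eq_zero_or_pos (r M n) with h0 | h0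
          · rw [h0, zero_mul] at h3
            exact Or.inr (by omega)
          · exact Or.inl h0
        have h6 : (β M ^ 2) ^ (2 * n) ≤ 1 := by
          have : β M ≤ 1 := by omega
          exact pow_le_one' (pow_le_one' this 2) _
        rcases h5 with h5 | h5
        · exact h6.trans (Nat.mul_pos (pow_pos h5 2) (pow_pos (by omega) _))
        · have h7 : (β M ^ 2) ^ (2 * n) = 0 := by
            rw [← pow_mul, mul_comm 2 (2 * n), pow_mul, h5]
            rfl
          rw [h7]
          exact Nat.zero_le _
      · calc (β M ^ 2) ^ (2 * n) = (β M ^ (2 * n)) ^ 2 := by rw [← pow_mul, ← pow_mul, mul_comm 2]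
          _ ≤ (r M n * (n + 1) ^ (β M ^ 2)) ^ 2 := Nat.pow_le_pow_left h3 2
          _ = r M n ^ 2 * (n + 1) ^ (β M ^ 2 * 2) := by rw [mul_pow, ← pow_mul]
          _ ≤ _ := by
            apply Nat.mul_le_mul_left
            apply Nat.pow_le_pow_right (by omega)
            nlinarith [Nat.pow_le_pow_left h4 2]
    have h3 := Pool.Agent.H64NC.lim_root h1 h2
    push_cast at h3
    exact h3
  · have h7 : ρ S = a + b := by
      rw [h.uniq ha, h.uniq hb]
      exact h.sum M N S hS
    show IsParityIndex hU S (a + b)
    rw [← h7]
    exact h.idx S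
  · obtain ⟨h7, h8, h9, -, -, h10⟩ := h.cp M R
    refine ⟨h7, h8, h9, fun n m hm hlt => h9.1 (h.nil_of_rank R hm hlt), ?_⟩
    have h11 := h.le R₀ M
    rw [h10]
    constructor
    · intro h12
      have h13 : ρ M = β M := by omega
      refine ⟨?_, h9.1 (by omega)⟩
      rw [← h13]
      exact h.idx M
    · rintro ⟨h12, h13⟩
      have h14 := h9.2 h13
      have h15 := h.uniq h12
      omega

end Pool.Agent.Results.MP_8f22fa_ag.NumericalBettiNumber
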