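import Pool.Agent.H64ND.Cpd

/-!
# Signs of noncommutative motives, and when they are multiplicative

`C` is a `ℚ`-linear rigid symmetric monoidal category in which the endomorphisms of the unit object are the rational
numbers, for example the category `NChow(k)_ℚ` of noncommutative Chow motives; `R₀`, `R` are symmetric monoidal additive
functors to finite dimensional super vector spaces over fields, for example `HP_±` in characteristic zero or
`TP_±(-)_{1/p}` in characteristic `p`. For an endomorphism `f` the rational number `ctr f` is its categorical trace;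
`f` is numerically trivial if `ctr (f ≫ g) = 0` for all `g`; `w` is a numerical involution if `w ≫ w` is numerically equivalent to the
identity; the parity index of an object is the largest trace of its numerical involutions. `tp M n` is the tensor power `M ^ n` and `tpm v n`
the tensor power of an endomorphism.

A *sign* of `X` is a numerical involution `w` with `ctr (w ≫ e) > 0` for every numerically nonzero numerical idempotent `e`. Under `C⁺(X)` the
difference of the Künneth projectors is a sign; but signs exist always:

1. Every object has a sign; it is unique up to numerical equivalence, numerically central, and the only numerical involution of maximal trace.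
2. Signs are not multiplicative in general. If `w` is the sign of `M ⊗ N` and `w ⊗ w` is the sign of `(M ⊗ N) ⊗ (M ⊗ N)`, then `w` is the tensor
   product of the signs of `M` and `N`.
3. The *numerical sign conjecture* for `M` (which does not involve realisations) says that the parity index of `M ^ n` is the `n`-th power of a number. It is equivalent
   that the tensor powers of the sign are signs, and that the growth of the parity indices of `M ^ n` is the parity index of `M`.
4. It holds for `M ⊗ N`, if this is not numerically zero, if and only if it holds for `M` and for `N`, and for a direct sum if and only if it holds for the summands.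
5. It holds for all objects if and only if tensor products of signs are signs, if and only if tensor squares of signs are signs.
6. `C⁺(M ⊗ N)` holds for a realisation `R` if and only if `C⁺(M)` and `C⁺(N)` hold, if `R(M)` and `R(N)` are not zero. (The unit object need not be
   a summand of `M` or of `N`; that `C⁺(M)` and `C⁺(N)` imply `C⁺(M ⊗ N)` is well known.)
7. `C⁺` holds for all objects (for a realisation `R`) if and only if (5) is so and numerically trivial endomorphisms are nilpotent under `R`.
8. The numerical sign conjecture for `M` can be read off from one tensor power `M ^ n`, if `n` is large compared with the dimension of some realisation.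

The main point is the exchange argument for (2): `w ⊗ w` commutes numerically with the exchange of the two factors `N`; the partial trace of this relation over
the second factor `M ⊗ N` is `c w = t ⊗ t'`, with the partial traces `t`, `t'` of `w`, and `c = ctr w`. Numerically the squares of `t`, `t'` are rational numbers, and these are squares.
-/

set_option autoImplicit false

open CategoryTheory Limits MonoidalCategory Filter Topology

namespace Pool.Agent.Results.MP_8f22fa_ag.SignMultiplicativity

open Pool.Agent.Y112.SR Pool.Agent.Y112.KD Pool.Agent.R484.NC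

universe u v w

section

variable {C : Type u} [Category.{v} C] [Preadditive C] [Linear ℚ C] [MonoidalCategory C]
  [MonoidalPreadditive C] [MonoidalLinear ℚ C] [SymmetricCategory C] [RightRigidCategory C]
  (hU : UnitQ C)

/-- `r` is the parity index of `X`: the largest trace of a numerical involution of `X`. -/
def IsParityIndex (X : C) (r : ℕ) : Prop :=
  IsGreatest {d : ℚ | ∃ x : X ⟶ X, NumInvolution hU x ∧ ctr hU x = d} r

/-- `w` is a sign of `X`: a numerical involution whose pairing with every numerically nonzero numerical idempotent is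
positive. -/
def IsSign {X : C} (w : X ⟶ X) : Prop :=
  NumInvolution hU w ∧ ∀ e : X ⟶ X, NumZero hU (e ≫ e - e) → ¬ NumZero hU e →
    0 < ctr hU (w ≫ e)

/-- The numerical sign conjecture for `M`: the parity index of the `n`-th tensor power is the `n`-th power of a number. -/
def NumSign (M : C) : Prop := ∃ r : ℕ, ∀ n : ℕ, IsParityIndex hU (tp M n) (r ^ n)

end

theorem result {C : Type u} [Category.{v} C] [Preadditive C] [Linear ℚ C] [MonoidalCategory C]
    [MonoidalPreadditive C] [MonoidalLinear ℚ C] [SymmetricCategory C] [RightRigidCategory C]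
    (hU : UnitQ C) {K₀ : Type w} [Field K₀] (R₀ : SuperRealisation C K₀) :
    (∀ X : C, ∃ w : X ⟶ X, (∀ g : X ⟶ X, NumZero hU (w ≫ g - g ≫ w)) ∧
      (∃ r : ℕ, IsParityIndex hU X r ∧ ctr hU w = r) ∧ ∀ v : X ⟶ X,
        [IsSign hU v, NumZero hU (v - w), NumInvolution hU v ∧ ctr hU v = ctr hU w].TFAE) ∧
    (∀ (M N : C) (v : M ⟶ M) (v' : N ⟶ N) (w : M ⊗ N ⟶ M ⊗ N), IsSign hU v →
      IsSign hU v' → IsSign hU w → IsSign hU (w ⊗ₘ w) → IsSign hU (v ⊗ₘ v')) ∧
    (∀ (M : C) (v : M ⟶ M), IsSign hU v → [NumSign hU M, ∀ n, IsSign hU (tpm v n),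
      ∀ ρ : ℕ → ℕ, (∀ n, IsParityIndex hU (tp M n) (ρ n)) →
        Tendsto (fun n : ℕ => (ρ n : ℝ) ^ ((1 : ℝ) / n)) atTop (𝓝 (ρ 1))].TFAE) ∧
    (∀ M N : C, ¬ NumZero hU (𝟙 (M ⊗ N)) →
      (NumSign hU (M ⊗ N) ↔ NumSign hU M ∧ NumSign hU N)) ∧
    (∀ M N S : C, IsSum M N S → (NumSign hU S ↔ NumSign hU M ∧ NumSign hU N)) ∧
    [∀ M : C, NumSign hU M, ∀ (M N : C) (v : M ⟶ M) (v' : N ⟶ N), IsSign hU v →
      IsSign hU v' → IsSign hU (v ⊗ₘ v'), ∀ (M : C) (v : M ⟶ M), IsSign hU v →
        IsSign hU (v ⊗ₘ v)].TFAE ∧
    ∀ {K : Type w} [Field K] (R : SuperRealisation C K),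
      (∀ M N : C, totalDim R M ≠ 0 → totalDim R N ≠ 0 →
        (R.CPlus (M ⊗ N) ↔ R.CPlus M ∧ R.CPlus N)) ∧
      ((∀ M, R.CPlus M) ↔ (∀ M, NumSign hU M) ∧
        ∀ (M : C) (f : M ⟶ M), NumZero hU f → IsNilpotent (R.H.map f).hom) ∧
      ∀ (M : C) (r n : ℕ), IsParityIndex hU M r →
        (n + 1) ^ (totalDim R M ^ 2) * r ^ (2 * n) < (r + 2) ^ (2 * n) →
          (NumSign hU M ↔ IsParityIndex hU (tp M n) (r ^ n)) := by
  obtain ⟨ρ, β, h⟩ := Pool.Agent.H64ND.exists_BD.{u, v, w} hU R₀
  refine ⟨fun X => ?_, ?_, ?_, fun M N hne => h.tensor_iff R₀ hne, fun M N S hS => h.sum_iff R₀ hS,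
    h.all_iff R₀, fun {K} _ R => ⟨fun M N hM hN => h.cplus_tensor R₀ R hM hN, h.real_iff R₀ R,
      fun M r n hr hn => h.single R₀ R hr hn⟩⟩
  · obtain ⟨w, hw, hc, hr⟩ := Pool.Agent.H64ND.exists_isSign (hU := hU) R₀ X
    refine ⟨w, hc, ⟨ρ X, h.idx X, hr _ (h.idx X)⟩, fun v => ?_⟩
    tfae_have 1 → 2 := fun hv => Pool.Agent.H64ND.sign_unique R₀ hv hw
    tfae_have 2 → 3 := by
      intro hv
      have h1 : Pool.Agent.H64ND.IsSign hU v :=
        Pool.Agent.H64ND.sign_congr R₀ (Pool.Agent.H64ND.NE.symm R₀ hv) hw
      refine ⟨h1.1, ?_⟩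
      have h2 := (Pool.Agent.H64ND.isSign_iff R₀ (h.idx X) v).1 h1
      rw [h2.2, hr _ (h.idx X)]
    tfae_have 3 → 1 := by
      rintro ⟨hv1, hv2⟩
      refine (Pool.Agent.H64ND.isSign_iff R₀ (h.idx X) v).2 ⟨hv1, ?_⟩
      rw [hv2, hr _ (h.idx X)]
    tfae_finish
  · intro M N v v' w hv hv' hw hww
    refine (h.tensor_sign R₀ hv hv').2 (h.desc_le R₀ ?_)
    exact (h.tensor_sign R₀ hw hw).1 hww
  · intro M v hv
    tfae_have 1 ↔ 2 := h.powers R₀ hv
    tfae_have 1 ↔ 3 := h.growth R₀ M
    tfae_finish

end Pool.Agent.Results.MP_8f22fa_ag.SignMultiplicativity
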